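import Mathlib

namespace Pool.Agent.Results.MP_c80912_nt.N105

open Polynomial

/-- coefficient vector of the remainder of `t^r` modulo `Φ_k` -/
noncomputable def a (k r : ℕ) : Fin k.totient → ℝ :=
  fun s => ((X ^ r %ₘ cyclotomic k ℤ).coeff s : ℤ)

/-- the cyclopolytope -/
def N (k : ℕ) : Set (Fin k.totient → ℝ) := convexHull ℝ {x | ∃ r < k, x = a k r}

def polar {d : ℕ} (P : Set (Fin d → ℝ)) : Set (Fin d → ℝ) := {y | ∀ x ∈ P, x ⬝ᵥ y ≤ 1}

def Reflexive {d : ℕ} (P : Set (Fin d → ℝ)) : Prop :=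
  0 ∈ interior P ∧ ∀ y ∈ (polar P).extremePoints ℝ, ∀ s, ∃ z : ℤ, y s = z

theorem c15 : cyclotomic 15 ℤ = X ^ 8 - X ^ 7 + X ^ 5 - X ^ 4 + X ^ 3 - X ^ 1 + X ^ 0 := by
  have h := cyclotomic_expand_eq_cyclotomic_mul (p := 5) (n := 3) (by norm_num) (by norm_num) ℤ
  refine mul_right_cancel₀ (cyclotomic_ne_zero 3 ℤ) (h.symm.trans ?_)
  simp only [cyclotomic_three, map_add, map_pow, expand_X, map_one]
  ring

theorem c105 : cyclotomic 105 ℤ = X ^ 48 + X ^ 47 + X ^ 46 - X ^ 43 - X ^ 42 - 2 * X ^ 41 - X ^ 40 - X ^ 39 + X ^ 36 + X ^ 35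
    + X ^ 34 + X ^ 33 + X ^ 32 + X ^ 31 - X ^ 28 - X ^ 26 - X ^ 24 - X ^ 22 - X ^ 20 + X ^ 17
    + X ^ 16 + X ^ 15 + X ^ 14 + X ^ 13 + X ^ 12 - X ^ 9 - X ^ 8 - 2 * X ^ 7 - X ^ 6 - X ^ 5
    + X ^ 2 + X ^ 1 + X ^ 0 := by
  have h := cyclotomic_expand_eq_cyclotomic_mul (p := 7) (n := 15) (by norm_num) (by norm_num) ℤ
  refine mul_right_cancel₀ (cyclotomic_ne_zero 15 ℤ) (h.symm.trans ?_)
  simp only [c15, map_add, map_sub, map_pow, expand_X]
  ring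

abbrev V := Fin (Nat.totient 105) → ℝ

noncomputable def T (y : V) : ℤ[X] →+ ℝ where
  toFun p := ∑ s, (((p %ₘ cyclotomic 105 ℤ).coeff s.1 : ℤ) : ℝ) * y s
  map_zero' := by simp
  map_add' p q := by simp [add_modByMonic, add_mul, Finset.sum_add_distrib]

noncomputable def f (y : V) (r : ℕ) : ℝ := a 105 r ⬝ᵥ y

theorem TX (y : V) (r : ℕ) : T y (X ^ r) = f y r := rfl

theorem T0 (y : V) {p : ℤ[X]} (h : cyclotomic 105 ℤ ∣ p) : T y p = 0 := by
  simp [T, (modByMonic_eq_zero_iff_dvd (cyclotomic.monic 105 ℤ)).2 h]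

theorem fs (y : V) (s : Fin (Nat.totient 105)) : f y s = y s := by
  have : X ^ s.1 %ₘ cyclotomic 105 ℤ = X ^ s.1 := by
    rw [modByMonic_eq_self_iff (cyclotomic.monic 105 ℤ), degree_cyclotomic, degree_X_pow]
    exact_mod_cast s.2
  simp [f, a, this, dotProduct, coeff_X_pow, Fin.val_inj]

theorem t48 : Nat.totient 105 = 48 := by decide

theorem rec48 (y : V) (j : ℕ) : f y (j + 48) + f y (j + 47) + f y (j + 46) - f y (j + 43) - f y (j + 42) - 2 * f y (j + 41)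
    - f y (j + 40) - f y (j + 39) + f y (j + 36) + f y (j + 35) + f y (j + 34) + f y (j + 33)
    + f y (j + 32) + f y (j + 31) - f y (j + 28) - f y (j + 26) - f y (j + 24) - f y (j + 22)
    - f y (j + 20) + f y (j + 17) + f y (j + 16) + f y (j + 15) + f y (j + 14) + f y (j + 13)
    + f y (j + 12) - f y (j + 9) - f y (j + 8) - 2 * f y (j + 7) - f y (j + 6) - f y (j + 5)
    + f y (j + 2) + f y (j + 1) + f y (j + 0) = 0 := by
  have := T0 y (dvd_mul_right _ (X ^ j))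
  rw [show cyclotomic 105 ℤ * X ^ j = X ^ (j + 48) + X ^ (j + 47) + X ^ (j + 46) - X ^ (j + 43) - X ^ (j + 42) - 2 * X ^ (j + 41)
    - X ^ (j + 40) - X ^ (j + 39) + X ^ (j + 36) + X ^ (j + 35) + X ^ (j + 34) + X ^ (j + 33)
    + X ^ (j + 32) + X ^ (j + 31) - X ^ (j + 28) - X ^ (j + 26) - X ^ (j + 24) - X ^ (j + 22)
    - X ^ (j + 20) + X ^ (j + 17) + X ^ (j + 16) + X ^ (j + 15) + X ^ (j + 14) + X ^ (j + 13)
    + X ^ (j + 12) - X ^ (j + 9) - X ^ (j + 8) - 2 * X ^ (j + 7) - X ^ (j + 6) - X ^ (j + 5)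
    + X ^ (j + 2) + X ^ (j + 1) + X ^ (j + 0) by rw [c105]; ring] at this
  simpa only [two_mul, map_add, map_sub, TX] using this

theorem line (y : V) (r : ℕ) : f y r + f y (r + 35) + f y (r + 70) = 0 := by
  have := T0 y (p := X ^ r + X ^ (r + 35) + X ^ (r + 70)) ⟨X ^ r * (X ^ 22 - X ^ 21 + X ^ 19 - X ^ 18 + X ^ 17 + X ^ 12 - X ^ 11 + X ^ 10 + X ^ 5 - X ^ 4 + X ^ 3
    - X ^ 1 + X ^ 0), by rw [c105]; ring⟩
  simpa only [map_add, TX] using this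

def S : List ℕ := [3, 4, 5, 6, 13, 14, 15, 16, 18, 21, 25, 42, 44, 45, 55, 61, 62, 64, 68, 69, 72, 76, 78, 82, 86, 94, 95]
def D : List ℕ := [0, 9, 19, 27, 30, 33, 34, 40, 48, 49, 51, 60, 63, 75, 79, 84, 90, 93, 97, 103]

theorem par (y : V) : (S.map (f y)).sum + 2 * (D.map (f y)).sum = 0 := by
  have := T0 y (p := (S.map (X ^ ·)).sum + 2 * (D.map (X ^ ·)).sum) ⟨2 * X ^ 55 - 2 * X ^ 54 + 2 * X ^ 52 - 2 * X ^ 51 + 2 * X ^ 50 + 2 * X ^ 49 - 2 * X ^ 48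
    + X ^ 47 + 2 * X ^ 46 + X ^ 45 - X ^ 44 + 2 * X ^ 43 + 4 * X ^ 42 - 3 * X ^ 41 + 2 * X ^ 40
    + 4 * X ^ 39 - X ^ 38 + 2 * X ^ 37 + 4 * X ^ 36 + X ^ 35 - 3 * X ^ 34 + 6 * X ^ 33 + 2 * X ^ 32
    + X ^ 31 + 3 * X ^ 30 + 4 * X ^ 28 + 3 * X ^ 26 + 2 * X ^ 25 + 2 * X ^ 24 + X ^ 23 + 3 * X ^ 22
    + 3 * X ^ 21 - 3 * X ^ 20 + 6 * X ^ 19 + X ^ 18 + X ^ 17 + 2 * X ^ 16 + X ^ 15 + 2 * X ^ 14
    + 4 * X ^ 12 - X ^ 11 + 3 * X ^ 9 + X ^ 8 - X ^ 7 + X ^ 6 + 2 * X ^ 5 - 2 * X ^ 4 + 3 * X ^ 3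
    - 2 * X ^ 1 + 2 * X ^ 0, by
    rw [c105]; simp only [S, D, List.map, List.sum_cons, List.sum_nil]; ring⟩
  simpa only [S, D, List.map, List.sum_cons, List.sum_nil, two_mul, map_add, map_zero, TX]
    using this

def F0 (r : ℕ) : ℤ := ([1, 2, 0, 2, 2, 2, 2, 1, 0, 2, 0, 0, -4, 2, 2, 2, 2, 2, 2, 2, 2, 2, 2, -1, -4, 2, -4, 1, 2, -4, 1, -2, -3, 0, -3, -3, -4, -2, -4, -1, -4, -4, 2, -2, 2, 2, -2, 2, -1, -1, 2, -4, -2, 2, 0, 2, 2, -2, 2, 2, -4, 2, 2, -4, 2, -3, 0, 2, 2, 2, 2, 2, 2, 2, -1, 2, 2, -3, 2, -4, -2, 2, 2, -1, -1, -4, 2, 0, -4, -2, -4, -4, 0, -1, 2, 2, 2, -3, 2, 2, 2, 2, 1, -2, 1] : List ℤ).getD r 0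

noncomputable def y0 : V := fun s => (F0 s : ℝ) / 2

theorem fy0 (r : ℕ) : r < 105 → f y0 r = (F0 r : ℝ) / 2 := by
  induction r using Nat.strong_induction_on with
  | _ r ih =>
  intro hr
  by_cases h : r < 48
  · exact fs y0 ⟨r, t48 ▸ h⟩
  · obtain ⟨j, rfl⟩ : ∃ j, r = j + 48 := ⟨r - 48, by omega⟩
    have h1 := rec48 y0 j
    have h2 : ∀ j < 57, F0 (j + 48) + F0 (j + 47) + F0 (j + 46) - F0 (j + 43) - F0 (j + 42) - 2 * F0 (j + 41) - F0 (j
    + 40) - F0 (j + 39) + F0 (j + 36) + F0 (j + 35) + F0 (j + 34) + F0 (j + 33) + F0 (j + 32)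
    + F0 (j + 31) - F0 (j + 28) - F0 (j + 26) - F0 (j + 24) - F0 (j + 22) - F0 (j + 20) + F0 (j
    + 17) + F0 (j + 16) + F0 (j + 15) + F0 (j + 14) + F0 (j + 13) + F0 (j + 12) - F0 (j + 9)
    - F0 (j + 8) - 2 * F0 (j + 7) - F0 (j + 6) - F0 (j + 5) + F0 (j + 2) + F0 (j + 1) + F0 (j
    + 0) = 0 := by decide +kernel
    have h3 : (F0 (j + 48) : ℝ) + (F0 (j + 47) : ℝ) + (F0 (j + 46) : ℝ) - (F0 (j + 43) : ℝ) - (F0 (j + 42) : ℝ)
    - 2 * (F0 (j + 41) : ℝ) - (F0 (j + 40) : ℝ) - (F0 (j + 39) : ℝ) + (F0 (j + 36) : ℝ) + (F0 (j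
    + 35) : ℝ) + (F0 (j + 34) : ℝ) + (F0 (j + 33) : ℝ) + (F0 (j + 32) : ℝ) + (F0 (j + 31) : ℝ)
    - (F0 (j + 28) : ℝ) - (F0 (j + 26) : ℝ) - (F0 (j + 24) : ℝ) - (F0 (j + 22) : ℝ) - (F0 (j
    + 20) : ℝ) + (F0 (j + 17) : ℝ) + (F0 (j + 16) : ℝ) + (F0 (j + 15) : ℝ) + (F0 (j + 14) : ℝ)
    + (F0 (j + 13) : ℝ) + (F0 (j + 12) : ℝ) - (F0 (j + 9) : ℝ) - (F0 (j + 8) : ℝ) - 2 * (F0 (j
    + 7) : ℝ) - (F0 (j + 6) : ℝ) - (F0 (j + 5) : ℝ) + (F0 (j + 2) : ℝ) + (F0 (j + 1) : ℝ)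
    + (F0 (j + 0) : ℝ) = 0 := by exact_mod_cast h2 j (by omega)
    rw [ih (j + 0) (by omega) (by omega), ih (j + 1) (by omega) (by omega), ih (j + 2) (by omega) (by omega), ih (j + 5) (by omega) (by omega), ih (j + 6) (by omega) (by omega), ih (j + 7) (by omega) (by omega), ih (j + 8) (by omega) (by omega), ih (j + 9) (by omega) (by omega), ih (j + 12) (by omega) (by omega), ih (j + 13) (by omega) (by omega), ih (j + 14) (by omega) (by omega), ih (j + 15) (by omega) (by omega), ih (j + 16) (by omega) (by omega), ih (j + 17) (by omega) (by omega), ih (j + 20) (by omega) (by omega), ih (j + 22) (by omega) (by omega), ih (j + 24) (by omega) (by omega), ih (j + 26) (by omega) (by omega), ih (j + 28) (by omega) (by omega), ih (j + 31) (by omega) (by omega), ih (j + 32) (by omega) (by omega), ih (j + 33) (by omega) (by omega), ih (j + 34) (by omega) (by omega), ih (j + 35) (by omega) (by omega),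 ih (j + 36) (by omega) (by omega), ih (j + 39) (by omega) (by omega), ih (j + 40) (by omega) (by omega), ih (j + 41) (by omega) (by omega), ih (j + 42) (by omega) (by omega), ih (j + 43) (by omega) (by omega), ih (j + 46) (by omega) (by omega), ih (j + 47) (by omega) (by omega)] at h1
    linarith

theorem polar_eq : polar (N 105) = {y | ∀ r < 105, f y r ≤ 1} := by
  ext y
  refine ⟨fun h r hr => h _ (subset_convexHull _ _ ⟨r, hr, rfl⟩), fun h x hx => ?_⟩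
  refine convexHull_min (t := {x | x ⬝ᵥ y ≤ 1}) ?_ ?_ hx
  · rintro _ ⟨r, hr, rfl⟩
    exact h r hr
  · intro u hu v hv s t hs ht hst
    simp only [Set.mem_ofPred_eq, add_dotProduct, smul_dotProduct, smul_eq_mul] at *
    nlinarith

theorem cont (r : ℕ) : Continuous fun y => f y r := by
  unfold f dotProduct; fun_prop

theorem result : ¬ ∀ k, 2 ≤ k → Reflexive (N k) := by
  intro h
  have H := (h 105 (by norm_num)).2
  rw [polar_eq] at H
  let F : Set V := {y | (∀ r < 105, f y r ≤ 1) ∧ ∀ r ∈ S, f y r = 1}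
  have hc : IsClosed F := by
    simp only [F, Set.setOf_and, Set.setOf_forall]
    exact (isClosed_iInter fun r => isClosed_iInter fun _ =>
      isClosed_le (cont r) continuous_const).inter (isClosed_iInter fun r =>
        isClosed_iInter fun _ => isClosed_eq (cont r) continuous_const)
  have hk : IsCompact F := by
    refine (isCompact_Icc (a := fun _ => -2) (b := fun _ => 1)).of_isClosed_subset hc ?_
    rintro y ⟨h1, -⟩
    have h2 := t48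
    refine ⟨fun s => ?_, fun s => ?_⟩
    · rw [← fs y s]
      have := s.2
      by_cases hs : s.1 < 35
      · linarith [line y s, h1 (s + 35) (by omega), h1 (s + 70) (by omega)]
      · obtain ⟨j, hj⟩ : ∃ j, s.1 = j + 35 := ⟨s - 35, by omega⟩
        rw [hj]
        linarith [line y j, h1 j (by omega), h1 (j + 70) (by omega)]
    · rw [← fs y s]
      have := s.2
      exact h1 s (by omega)
  have hS : ∀ r ∈ S, r < 105 ∧ F0 r = 2 := by decide +kernel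
  have hn : F.Nonempty := by
    refine ⟨y0, fun r hr => ?_, fun r hr => ?_⟩
    · have : (F0 r : ℝ) ≤ 2 := by
        exact_mod_cast (by decide +kernel : ∀ r < 105, F0 r ≤ 2) r hr
      rw [fy0 r hr]; linarith
    · rw [fy0 r (hS r hr).1, (hS r hr).2]; norm_num
  have he : IsExtreme ℝ {y | ∀ r < 105, f y r ≤ 1} F := by
    refine ⟨fun y hy => hy.1, ?_⟩
    rintro x hx y hy _ ⟨-, hz⟩ ⟨s, t, hs, ht, hst, rfl⟩
    refine ⟨hx, fun r hr => ?_⟩
    have h1 := hz r hr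
    have h2 := hx r (hS r hr).1
    have h3 := hy r (hS r hr).1
    simp only [f, dotProduct_add, dotProduct_smul, smul_eq_mul] at *
    nlinarith
  obtain ⟨y, hy⟩ := hk.extremePoints_nonempty hn
  choose z hz using H y (he.extremePoints_subset_extremePoints hy)
  let g : ℕ → ℤ := fun r => ∑ s, (X ^ r %ₘ cyclotomic 105 ℤ).coeff s.1 * z s
  have hg : f y = fun r => (g r : ℝ) := by
    funext r
    simp [f, a, g, dotProduct, hz]
  have h1 := par y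
  have h2 : (S.map (f y)).sum = 27 := by
    rw [List.map_congr_left hy.1.2]
    simp [S]
    norm_num
  rw [h2, hg] at h1
  have h3 : (D.map fun r => (g r : ℝ)).sum = ((D.map g).sum : ℤ) := by
    simp [List.map_map, Function.comp_def]
  rw [h3] at h1
  have h4 : 27 + 2 * (D.map g).sum = 0 := by exact_mod_cast h1
  omega

end Pool.Agent.Results.MP_c80912_nt.N105
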